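import Pool.Agent.helper91.RB.Spec1

/-!
Row rb:TAU (MP_24e2e7_nt): the norm one torus.
-/

set_option autoImplicit false

namespace Pool.Agent.RB

open NumberField NumberField.InfinitePlace NumberField.Units NumberField.Units.dirichletUnitTheorem
open MeasureTheory Filter Topology Module
open scoped nonZeroDivisors Real Classical

theorem TAU_log (K : Type) [Field K] [NumberField K] (z : logSpace K) :
    ∑ v : InfinitePlace K, (v.mult : ℝ) * Real.log (tau K z v) = 0 := by
  rw [Fintype.sum_eq_add_sum_subtype_ne _ (w₀ : InfinitePlace K)]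
  have h1 : ((w₀ : InfinitePlace K).mult : ℝ) * Real.log (tau K z w₀) = -(2 * ∑ u, z u) := by
    unfold tau
    rw [dif_pos rfl, Real.log_exp]
    have : ((w₀ : InfinitePlace K).mult : ℝ) ≠ 0 := mult_coe_ne_zero
    field_simp
  have h2 : ∀ v : {v : InfinitePlace K // v ≠ w₀},
      ((v : InfinitePlace K).mult : ℝ) * Real.log (tau K z v) = 2 * z v := by
    intro v
    unfold tau
    rw [dif_neg v.2, Real.log_exp]
    have : ((v : InfinitePlace K).mult : ℝ) ≠ 0 := mult_coe_ne_zero
    field_simp
  rw [h1, Finset.sum_congr rfl (fun v _ => h2 v), ← Finset.mul_sum]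
  ring

theorem TAU_pos (K : Type) [Field K] [NumberField K] (z : logSpace K) (v : InfinitePlace K) :
    0 < tau K z v := by
  unfold tau
  split_ifs
  · exact Real.exp_pos _
  · exact Real.exp_pos _

theorem TAU : TAU_stmt := by
  intro K _ _
  refine ⟨TAU_pos K, ?_, ?_, ?_, ?_, ?_⟩
  · intro z z' v
    unfold tau
    split_ifs with h
    · rw [← Real.exp_add]
      congr 1
      simp only [Pi.add_apply, Finset.sum_add_distrib]
      ring
    · rw [← Real.exp_add]
      congr 1
      simp only [Pi.add_apply]
      ring
  · intro z v
    unfold tau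
    split_ifs with h
    · rw [← Real.exp_neg]
      congr 1
      simp only [Pi.neg_apply, Finset.sum_neg_distrib]
      ring
    · rw [← Real.exp_neg]
      congr 1
      simp only [Pi.neg_apply]
      ring
  · intro u v
    have hpos : 0 < v (u : K) := Units.pos_at_place u v
    have hm : (v.mult : ℝ) ≠ 0 := mult_coe_ne_zero
    have h2 : Real.exp (2 * Real.log (v (u : K))) = v (u : K) ^ 2 := by
      rw [two_mul, Real.exp_add, Real.exp_log hpos, pow_two]
    rw [← h2]
    unfold tau
    split_ifs with h
    · subst h
      rw [sum_logEmbedding_component]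
      congr 1
      field_simp
    · rw [logEmbedding_component]
      congr 1
      field_simp
  · intro z
    have h1 : ∀ v : InfinitePlace K, tau K z v ^ v.mult =
        Real.exp ((v.mult : ℝ) * Real.log (tau K z v)) := by
      intro v
      rw [Real.exp_nat_mul, Real.exp_log (TAU_pos K z v)]
    rw [Finset.prod_congr rfl (fun v _ => h1 v), ← Real.exp_sum, TAU_log, Real.exp_zero]
  · apply continuous_pi
    intro v
    unfold tau
    by_cases h : v = w₀
    · simp only [dif_pos h]
      fun_prop
    · simp only [dif_neg h]
      fun_prop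

end Pool.Agent.RB
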